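import Mathlib
import Pool.Agent.H789R5.RF.Rank
import Pool.Agent.H283R2.DR.IndepLocal

/-!
# Isomorphic pieces attached to a small set

The number of motions is a convex function of the number of the pieces.
-/

set_option autoImplicit false
set_option linter.unusedSectionVars false

namespace Pool.Agent.T2H92.SD

open Finset Matrix Module Pool.Agent.H283R2.DR Pool.Agent.H789R5

variable {V : Type} {d : ℕ}

theorem mo_comp {G H : SimpleGraph V} (σ : V ≃ V) (h : ∀ u v, H.Adj (σ u) (σ v) ↔ G.Adj u v)
    (p : V → Fin d → ℝ) : mo H p = mo G (p ∘ σ) := by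
  have e : (Mot H p).map ((LinearEquiv.funCongrLeft ℝ (Fin d → ℝ) σ :
      (V → Fin d → ℝ) ≃ₗ[ℝ] (V → Fin d → ℝ)) : (V → Fin d → ℝ) →ₗ[ℝ] (V → Fin d → ℝ)) =
      Mot G (p ∘ σ) := by
    ext q
    rw [mem_mot]
    constructor
    · rintro ⟨q', hq', rfl⟩ u v huv
      have := (mem_mot H p q').1 hq' (σ u) (σ v) ((h u v).2 huv)
      exact this
    · intro hq
      refine ⟨fun v => q (σ.symm v), ?_, ?_⟩
      · show _ ∈ Mot H p
        rw [mem_mot]
        intro u v huv
        have h1 : G.Adj (σ.symm u) (σ.symm v) := by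
          rw [← h, σ.apply_symm_apply, σ.apply_symm_apply]
          exact huv
        have := hq _ _ h1
        simpa using this
      · funext v
        show q (σ.symm (σ v)) = q v
        rw [σ.symm_apply_apply]
  unfold mo
  rw [← e]
  exact (LinearEquiv.finrank_map_eq _ _).symm

variable [Fintype V]

theorem mo_equiv {G H : SimpleGraph V} (σ : V ≃ V) (h : ∀ u v, H.Adj (σ u) (σ v) ↔ G.Adj u v)
    {p : V → Fin d → ℝ} (hp : MG p) : mo H p = mo G p := by
  apply le_antisymm
  · have h1 := mo_comp σ h (p ∘ σ.symm)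
    have h2 : (p ∘ σ.symm) ∘ σ = p := by
      funext v
      simp
    rw [h2] at h1
    rw [← h1]
    exact hp.min H _
  · rw [mo_comp σ h p]
    exact hp.min G _

theorem mo_submod (G H : SimpleGraph V) (p : V → Fin d → ℝ) :
    mo G p + mo H p ≤ mo (G ⊔ H) p + mo (G ⊓ H) p := by
  have h1 : Mot (G ⊔ H) p = Mot G p ⊓ Mot H p := by
    ext q
    rw [Submodule.mem_inf, mem_mot, mem_mot, mem_mot]
    constructor
    · intro h
      exact ⟨fun u v huv => h u v (Or.inl huv), fun u v huv => h u v (Or.inr huv)⟩
    · rintro ⟨h, h'⟩ u v (huv | huv)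
      · exact h u v huv
      · exact h' u v huv
  have h2 : Mot G p ⊔ Mot H p ≤ Mot (G ⊓ H) p :=
    sup_le (mot_anti inf_le_left p) (mot_anti inf_le_right p)
  have h3 := Submodule.finrank_sup_add_finrank_inf_eq (Mot G p) (Mot H p)
  have h4 := Submodule.finrank_mono h2
  unfold mo
  rw [h1]
  omega

theorem mo_le_add (G H : SimpleGraph V) (Y : Finset V)
    (h : ∀ u v, G.Adj u v → H.Adj u v ∨ (u ∈ Y ∧ v ∈ Y)) (p : V → Fin d → ℝ) :
    mo H p ≤ mo G p + d * Y.card := by
  classical
  let R : (V → Fin d → ℝ) →ₗ[ℝ] (Y → Fin d → ℝ) := LinearMap.funLeft ℝ (Fin d → ℝ) Subtype.val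
  have h1 := LinearMap.finrank_range_add_finrank_ker (R.comp (Mot H p).subtype)
  have h2 : Module.finrank ℝ (LinearMap.range (R.comp (Mot H p).subtype)) ≤ d * Y.card := by
    refine (Submodule.finrank_le _).trans ?_
    rw [Module.finrank_pi_fintype]
    simp [mul_comm]
  have h3 : Module.finrank ℝ (LinearMap.ker (R.comp (Mot H p).subtype)) ≤ mo G p := by
    have : (LinearMap.ker (R.comp (Mot H p).subtype)).map (Mot H p).subtype ≤ Mot G p := by
      rintro _ ⟨⟨q, hq⟩, hq', rfl⟩
      have h5 : ∀ y ∈ Y, q y = 0 := by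
        intro y hy
        have h6 : R q = 0 := hq'
        exact congrFun h6 ⟨y, hy⟩
      show q ∈ Mot G p
      rw [mem_mot] at hq ⊢
      intro u v huv
      rcases h u v huv with h7 | ⟨hu, hv⟩
      · exact hq u v h7
      · rw [h5 u hu, h5 v hv, sub_zero, dotProduct_zero]
    have h6 := Submodule.finrank_mono this
    rw [Submodule.finrank_map_subtype_eq] at h6
    exact h6
  unfold mo at *
  omega

/-! ### Pieces -/

variable {ι C : Type} [Fintype ι] [Fintype C]

/-- Isomorphic pieces, each attached to the set `X` only. -/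
structure Pieces (G : SimpleGraph V) (X : Finset V) (e : ι → C → V) : Prop where
  inj : ∀ i a j b, e i a = e j b → i = j ∧ a = b
  out : ∀ i a, e i a ∉ X
  nbr : ∀ i a w, G.Adj (e i a) w → w ∈ X ∨ ∃ b, w = e i b
  homX : ∀ i j a, ∀ x ∈ X, G.Adj (e i a) x ↔ G.Adj (e j a) x
  homD : ∀ i j a b, G.Adj (e i a) (e i b) ↔ G.Adj (e j a) (e j b)

/-- the graph with the edges at the pieces outside `J` removed -/
def part (G : SimpleGraph V) (e : ι → C → V) (J : Finset ι) : SimpleGraph V where
  Adj u v := G.Adj u v ∧ ∀ i a, i ∉ J → u ≠ e i a ∧ v ≠ e i a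
  symm := ⟨fun _ _ h => ⟨h.1.symm, fun i a hi => ⟨(h.2 i a hi).2, (h.2 i a hi).1⟩⟩⟩
  loopless := ⟨fun _ h => h.1.ne rfl⟩

theorem part_univ (G : SimpleGraph V) (e : ι → C → V) : part G e univ = G := by
  ext u v
  exact ⟨fun h => h.1, fun h => ⟨h, fun i _ hi => absurd (mem_univ i) hi⟩⟩

theorem Pieces.one {G : SimpleGraph V} {X : Finset V} {e : ι → C → V} (hP : Pieces G X e)
    {i : ι} {a : C} {w : V} (h : G.Adj (e i a) w) {j : ι} (hj : j ≠ i) (b : C) : w ≠ e j b := by
  rintro rfl
  rcases hP.nbr i a _ h with h1 | ⟨b', h1⟩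
  · exact hP.out j b h1
  · exact hj (hP.inj _ _ _ _ h1).1

theorem part_sup [DecidableEq ι] {G : SimpleGraph V} {X : Finset V} {e : ι → C → V}
    (hP : Pieces G X e) (J J' : Finset ι) : part G e J ⊔ part G e J' = part G e (J ∪ J') := by
  ext u v
  constructor
  · rintro (h | h)
    · exact ⟨h.1, fun i a hi => h.2 i a fun h' => hi (mem_union_left _ h')⟩
    · exact ⟨h.1, fun i a hi => h.2 i a fun h' => hi (mem_union_right _ h')⟩
  · intro h
    -- an edge at the piece `i`
    have key : ∀ i, (∃ a, u = e i a ∨ v = e i a) → ∀ K : Finset ι, i ∈ K → (part G e K).Adj u v := by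
      rintro i ⟨a, ha⟩ K hK
      refine ⟨h.1, fun j b hj => ?_⟩
      have hji : j ≠ i := fun h' => hj (h' ▸ hK)
      rcases ha with rfl | rfl
      · exact ⟨fun h' => hji (hP.inj _ _ _ _ h').1.symm, hP.one h.1 hji b⟩
      · exact ⟨hP.one h.1.symm hji b, fun h' => hji (hP.inj _ _ _ _ h').1.symm⟩
    by_cases hex : ∃ i a, u = e i a ∨ v = e i a
    · obtain ⟨i, hi⟩ := hex
      have hiJ : i ∈ J ∪ J' := by
        by_contra hc
        obtain ⟨a, ha⟩ := hi
        rcases ha with ha | ha
        · exact (h.2 i a hc).1 ha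
        · exact (h.2 i a hc).2 ha
      rcases mem_union.1 hiJ with h1 | h1
      · exact Or.inl (key i hi J h1)
      · exact Or.inr (key i hi J' h1)
    · push Not at hex
      exact Or.inl ⟨h.1, fun i a _ => hex i a⟩

theorem part_inf [DecidableEq ι] (G : SimpleGraph V) (e : ι → C → V) (J J' : Finset ι) :
    part G e J ⊓ part G e J' = part G e (J ∩ J') := by
  ext u v
  constructor
  · rintro ⟨h, h'⟩
    refine ⟨h.1, fun i a hi => ?_⟩
    by_cases hJ : i ∈ J
    · exact h'.2 i a fun hJ' => hi (mem_inter.2 ⟨hJ, hJ'⟩)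
    · exact h.2 i a hJ
  · intro h
    exact ⟨⟨h.1, fun i a hi => h.2 i a fun h' => hi (mem_inter.1 h').1⟩,
      ⟨h.1, fun i a hi => h.2 i a fun h' => hi (mem_inter.1 h').2⟩⟩

open Classical in
theorem mo_part_perm {G : SimpleGraph V} {X : Finset V} {e : ι → C → V}
    (hP : Pieces G X e) (σ : Equiv.Perm ι) (J J' : Finset ι) (hJ : ∀ i, σ i ∈ J' ↔ i ∈ J)
    {p : V → Fin d → ℝ} (hp : MG p) : mo (part G e J') p = mo (part G e J) p := by
  have hinj : Function.Injective (fun x : ι × C => e x.1 x.2) := by
    rintro ⟨i, a⟩ ⟨j, b⟩ h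
    obtain ⟨h1, h2⟩ := hP.inj _ _ _ _ h
    exact Prod.ext h1 h2
  set f := Equiv.ofInjective _ hinj with hf
  set τ : Equiv.Perm (ι × C) := Equiv.prodCongr σ (Equiv.refl C) with hτ
  set π : Equiv.Perm V := Equiv.Perm.extendDomain τ f with hπ
  have hπ1 : ∀ i a, π (e i a) = e (σ i) a := by
    intro i a
    have := Equiv.Perm.extendDomain_apply_image τ f (i, a)
    exact this
  have hπ2 : ∀ v, (∀ i a, v ≠ e i a) → π v = v := by
    intro v hv
    apply Equiv.Perm.extendDomain_apply_not_subtype
    rintro ⟨⟨i, a⟩, h⟩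
    exact hv i a h.symm
  have hcase : ∀ v, (∃ i a, v = e i a) ∨ (∀ i a, v ≠ e i a) := by
    intro v
    by_cases h : ∃ i a, v = e i a
    · exact Or.inl h
    · push Not at h
      exact Or.inr h
  -- adjacency of a vertex of a piece and an outer vertex
  have hout : ∀ i a w, (∀ j b, w ≠ e j b) → (G.Adj (e (σ i) a) w ↔ G.Adj (e i a) w) := by
    intro i a w hw
    by_cases hX : w ∈ X
    · exact hP.homX _ _ _ w hX
    · constructor
      · intro h
        rcases hP.nbr _ _ _ h with h1 | ⟨b, h1⟩
        · exact absurd h1 hX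
        · exact absurd h1 (hw _ b)
      · intro h
        rcases hP.nbr _ _ _ h with h1 | ⟨b, h1⟩
        · exact absurd h1 hX
        · exact absurd h1 (hw _ b)
  have hadj : ∀ u v, G.Adj (π u) (π v) ↔ G.Adj u v := by
    intro u v
    rcases hcase u with ⟨i, a, rfl⟩ | hu
    · rcases hcase v with ⟨j, b, rfl⟩ | hv
      · rw [hπ1, hπ1]
        by_cases hij : i = j
        · subst hij
          exact hP.homD _ _ _ _
        · constructor
          · intro h
            exact absurd rfl (hP.one h (j := σ j) (fun h' => hij (σ.injective h').symm) b)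
          · intro h
            exact absurd rfl (hP.one h (j := j) (fun h' => hij h'.symm) b)
      · rw [hπ1, hπ2 v hv]
        exact hout i a v hv
    · rcases hcase v with ⟨j, b, rfl⟩ | hv
      · rw [hπ1, hπ2 u hu, G.adj_comm, G.adj_comm u]
        exact hout j b u hu
      · rw [hπ2 u hu, hπ2 v hv]
  apply mo_equiv π _ hp
  intro u v
  have hm : ∀ w, (∀ i a, i ∉ J' → π w ≠ e i a) ↔ (∀ i a, i ∉ J → w ≠ e i a) := by
    intro w
    rcases hcase w with ⟨i, a, rfl⟩ | hw
    · rw [hπ1]
      constructor
      · intro h j b hj hab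
        obtain ⟨rfl, rfl⟩ := hP.inj _ _ _ _ hab
        exact h (σ i) a (fun h' => hj ((hJ i).1 h')) rfl
      · intro h j b hj hab
        obtain ⟨h1, rfl⟩ := hP.inj _ _ _ _ hab
        exact h i a (fun h' => hj (h1 ▸ (hJ i).2 h')) rfl
    · rw [hπ2 w hw]
      exact ⟨fun _ j b _ => hw j b, fun _ j b _ => hw j b⟩
  constructor
  · rintro ⟨h1, h2⟩
    refine ⟨(hadj u v).1 h1, fun i a hi => ⟨?_, ?_⟩⟩
    · exact (hm u).1 (fun i a hi => (h2 i a hi).1) i a hi
    · exact (hm v).1 (fun i a hi => (h2 i a hi).2) i a hi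
  · rintro ⟨h1, h2⟩
    refine ⟨(hadj u v).2 h1, fun i a hi => ⟨?_, ?_⟩⟩
    · exact (hm u).2 (fun i a hi => (h2 i a hi).1) i a hi
    · exact (hm v).2 (fun i a hi => (h2 i a hi).2) i a hi

open Classical in
/-- If the removal of one piece creates more than `δ - 1` motions, then there are few pieces. -/
theorem pieces_le {G : SimpleGraph V} {X : Finset V} {e : ι → C → V} (hP : Pieces G X e)
    {p : V → Fin d → ℝ} (hp : MG p) (i0 : ι) (δ : ℕ)
    (hδ : mo G p + δ ≤ mo (part G e (univ.erase i0)) p) :
    Fintype.card ι * δ ≤ d * (X.card + Fintype.card ι * Fintype.card C) := by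
  -- the increments are convex
  have hC : ∀ n : ℕ, ∀ S : Finset ι, i0 ∉ S → (univ \ insert i0 S).card = n →
      mo (part G e (insert i0 S)) p + δ ≤ mo (part G e S) p := by
    intro n
    induction n with
    | zero =>
      intro S hS hn
      have h1 : insert i0 S = univ := by
        rw [card_eq_zero, sdiff_eq_empty_iff_subset] at hn
        exact univ_subset_iff.1 hn
      have h2 : S = univ.erase i0 := by
        rw [← h1, erase_insert hS]
      rw [h1, part_univ, h2]
      exact hδ
    | succ n ih =>
      intro S hS hn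
      obtain ⟨j, hj⟩ : (univ \ insert i0 S).Nonempty := by
        rw [← card_pos]; omega
      rw [mem_sdiff, mem_insert, not_or] at hj
      obtain ⟨-, hji, hjS⟩ := hj
      have h1 := ih (insert j S) (by
        rw [mem_insert, not_or]
        exact ⟨fun h => hji h.symm, hS⟩) (by
        have : univ \ insert i0 (insert j S) = (univ \ insert i0 S).erase j := by
          ext x
          simp only [mem_sdiff, mem_univ, true_and, mem_insert, not_or, mem_erase]
          tauto
        rw [this, card_erase_of_mem (by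
          rw [mem_sdiff, mem_insert, not_or]
          exact ⟨mem_univ _, hji, hjS⟩), hn]
        rfl)
      have h2 := mo_submod (part G e (insert i0 S)) (part G e (insert j S)) p
      rw [part_sup hP, part_inf] at h2
      have e1 : insert i0 S ∪ insert j S = insert i0 (insert j S) := by
        ext x
        simp only [mem_union, mem_insert]
        tauto
      have e2 : insert i0 S ∩ insert j S = S := by
        ext x
        simp only [mem_inter, mem_insert]
        constructor
        · rintro ⟨h | h, h' | h'⟩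
          · exact absurd (h'.symm.trans h) hji
          · exact h'
          · exact h
          · exact h
        · exact fun h => ⟨Or.inr h, Or.inr h⟩
      rw [e1, e2] at h2
      omega
  have hC' : ∀ S : Finset ι, i0 ∉ S → mo (part G e (insert i0 S)) p + δ ≤ mo (part G e S) p :=
    fun S hS => hC _ S hS rfl
  have hE : ∀ S : Finset ι, i0 ∉ S → mo (part G e S) p + S.card * δ ≤ mo (part G e ∅) p := by
    intro S
    induction S using Finset.induction_on with
    | empty => intro _; simp
    | insert j S hjS ih =>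
      intro hi
      rw [mem_insert, not_or] at hi
      have h1 := ih hi.2
      have h2 := hC' S hi.2
      have h3 : mo (part G e (insert j S)) p = mo (part G e (insert i0 S)) p := by
        apply mo_part_perm hP (Equiv.swap i0 j) _ _ _ hp
        intro i
        by_cases h4 : i = i0
        · subst h4
          simp [Equiv.swap_apply_left]
        · by_cases h5 : i = j
          · subst h5
            rw [Equiv.swap_apply_right]
            simp only [mem_insert]
            constructor
            · rintro (h | h)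
              · exact Or.inl h.symm
              · exact absurd h hi.2
            · rintro (h | h)
              · exact Or.inl h.symm
              · exact absurd h hjS
          · rw [Equiv.swap_apply_of_ne_of_ne h4 h5]
            simp only [mem_insert, h4, h5, false_or]
      rw [card_insert_of_notMem hjS, add_mul, one_mul]
      omega
  have h1 := hE (univ.erase i0) (notMem_erase _ _)
  have h2 := hC' (univ.erase i0) (notMem_erase _ _)
  rw [insert_erase (mem_univ i0), part_univ] at h2
  rw [card_erase_of_mem (mem_univ i0), card_univ] at h1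
  -- the upper bound
  set Y : Finset V := X ∪ (univ : Finset (ι × C)).image (fun x => e x.1 x.2) with hY
  have h3 : mo (part G e ∅) p ≤ mo G p + d * Y.card := by
    apply mo_le_add
    intro u v huv
    have hmem : ∀ i a, e i a ∈ Y := fun i a =>
      mem_union_right _ (mem_image.2 ⟨(i, a), mem_univ _, rfl⟩)
    have hnb : ∀ i a w, G.Adj (e i a) w → w ∈ Y := by
      intro i a w h
      rcases hP.nbr i a w h with h | ⟨b, rfl⟩
      · exact mem_union_left _ h
      · exact hmem i b
    by_cases hex : ∃ i a, u = e i a ∨ v = e i a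
    · right
      obtain ⟨i, a, rfl | rfl⟩ := hex
      · exact ⟨hmem i a, hnb i a v huv⟩
      · exact ⟨hnb i a u huv.symm, hmem i a⟩
    · left
      push Not at hex
      exact ⟨huv, fun i a _ => hex i a⟩
  have h4 : Y.card ≤ X.card + Fintype.card ι * Fintype.card C := by
    refine (card_union_le _ _).trans (Nat.add_le_add_left ?_ _)
    refine card_image_le.trans ?_
    rw [card_univ, Fintype.card_prod]
  have h5 := Nat.mul_le_mul_left d h4
  have h6 : 1 ≤ Fintype.card ι := Fintype.card_pos_iff.2 ⟨i0⟩
  obtain ⟨N, hN⟩ : ∃ N, Fintype.card ι = N + 1 := ⟨Fintype.card ι - 1, by omega⟩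
  rw [hN] at h1 ⊢
  rw [hN] at h5
  rw [Nat.add_sub_cancel] at h1
  rw [add_mul, one_mul]
  omega

end Pool.Agent.T2H92.SD
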