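import Mathlib
import Pool.Agent.T2H92.SD.Conv
import Pool.Agent.H283R2.DR.Glue

/-!
# Homogeneous families of pieces

A piece of a large homogeneous family can be deleted from a generically rigid graph.
-/

set_option autoImplicit false
set_option linter.unusedSectionVars false

namespace Pool.Agent.T2H92.SD

open Finset Matrix Module Pool.Agent.H283R2.DR Pool.Agent.H789R5

variable {V : Type} {d : ℕ} [Fintype V]

open Classical in
theorem mo_induce_add (G H : SimpleGraph V) (U : Set V)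
    (hH : ∀ u v, H.Adj u v → u ∈ U ∧ v ∈ U ∧ G.Adj u v) (p : V → Fin d → ℝ) :
    mo (G.induce U) (fun x : U => p x) + d * Nat.card {v // v ∉ U} ≤ mo H p := by
  let Ψ : ((Mot (G.induce U) (fun x : U => p x)) × ({v // v ∉ U} → Fin d → ℝ)) →ₗ[ℝ]
      (V → Fin d → ℝ) :=
    { toFun := fun x v => if h : v ∈ U then x.1.1 ⟨v, h⟩ else x.2 ⟨v, h⟩
      map_add' := by
        intro x y
        funext v
        by_cases h : v ∈ U
        · simp only [h, dif_pos, Pi.add_apply]
          rfl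
        · simp only [h, dif_neg, Pi.add_apply, not_false_iff]
          rfl
      map_smul' := by
        intro c x
        funext v
        by_cases h : v ∈ U
        · simp only [h, dif_pos, Pi.smul_apply, RingHom.id_apply]
          rfl
        · simp only [h, dif_neg, Pi.smul_apply, RingHom.id_apply, not_false_iff]
          rfl }
  have hU : ∀ x v (h : v ∈ U), Ψ x v = x.1.1 ⟨v, h⟩ := fun x v h => dif_pos h
  have hU' : ∀ x v (h : v ∉ U), Ψ x v = x.2 ⟨v, h⟩ := fun x v h => dif_neg h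
  have hinj : Function.Injective Ψ := by
    intro x y hxy
    apply Prod.ext
    · apply Subtype.ext
      funext v
      have := congrFun hxy v
      rw [hU x v v.2, hU y v v.2] at this
      exact this
    · funext v
      have := congrFun hxy v
      rw [hU' x v v.2, hU' y v v.2] at this
      exact this
  have hr : LinearMap.range Ψ ≤ Mot H p := by
    rintro _ ⟨x, rfl⟩
    rw [mem_mot]
    intro u v huv
    obtain ⟨hu, hv, h⟩ := hH u v huv
    rw [hU x u hu, hU x v hv]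
    exact (mem_mot _ _ _).1 x.1.2 ⟨u, hu⟩ ⟨v, hv⟩ h
  have h1 := LinearMap.finrank_range_of_inj hinj
  have h2 := Submodule.finrank_mono hr
  rw [h1, Module.finrank_prod, Module.finrank_pi_fintype] at h2
  simp only [Module.finrank_fin_fun, sum_const, card_univ, smul_eq_mul] at h2
  unfold mo
  rw [mul_comm d, Nat.card_eq_fintype_card]
  exact h2

variable {ι C : Type} [Fintype ι] [Fintype C]

theorem rigid_of_pieces {G : SimpleGraph V} {X : Finset V} {e : ι → C → V} (hP : Pieces G X e)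
    (hG : GenRigid d G) (i0 : ι) (hN : d * X.card < Fintype.card ι)
    (hV : d + Fintype.card C ≤ Fintype.card V) :
    GenRigid d (G.induce {v | ∀ a, v ≠ e i0 a}) := by
  classical
  obtain ⟨p, hp⟩ := exists_mg V d
  have h1 := (genRigid_iff hp (by omega) G).1 hG
  have hc : Nat.card {v // v ∉ {v | ∀ a, v ≠ e i0 a}} = Fintype.card C := by
    have hi : Function.Injective (e i0) := fun a b h => (hP.inj _ _ _ _ h).2
    rw [← Nat.card_eq_fintype_card, Nat.card_congr (Equiv.ofInjective _ hi)]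
    apply Nat.card_congr
    refine Equiv.subtypeEquivRight fun v => ?_
    simp only [Set.mem_ofPred_eq, Set.mem_range, not_forall, not_not, eq_comm]
  have h2 : mo (part G e (univ.erase i0)) p ≤ mo G p + d * Fintype.card C := by
    by_contra hcon
    have h3 := pieces_le hP hp i0 (d * Fintype.card C + 1) (by omega)
    have h4 : Fintype.card ι * (d * Fintype.card C + 1) =
        d * (Fintype.card ι * Fintype.card C) + Fintype.card ι := by ring
    rw [h4, mul_add] at h3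
    omega
  have h3 := mo_induce_add G (part G e (univ.erase i0)) {v | ∀ a, v ≠ e i0 a} (by
    intro u v huv
    exact ⟨fun a => (huv.2 i0 a (notMem_erase _ _)).1, fun a => (huv.2 i0 a (notMem_erase _ _)).2,
      huv.1⟩) p
  rw [hc] at h3
  obtain ⟨p', hp'⟩ := exists_mg {v | ∀ a, v ≠ e i0 a} d
  have h4 := hp'.min (G.induce {v | ∀ a, v ≠ e i0 a})
    (fun x : {v | ∀ a, v ≠ e i0 a} => p x)
  have h5 : d ≤ Fintype.card {v | ∀ a, v ≠ e i0 a} := by
    have h6 := Fintype.card_subtype_compl (fun v => v ∈ {v | ∀ a, v ≠ e i0 a})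
    have h7 := Fintype.card_subtype_le (fun v => v ∈ {v | ∀ a, v ≠ e i0 a})
    rw [← Nat.card_eq_fintype_card, hc] at h6
    have h8 : Fintype.card {v // v ∈ {v | ∀ a, v ≠ e i0 a}} =
      Fintype.card {v | ∀ a, v ≠ e i0 a} := by congr
    omega
  rw [genRigid_iff hp' h5]
  omega

/-! ### Homogeneous families -/

/-- A homogeneous family of pieces. -/
structure Homog (G : SimpleGraph V) (e : ι → C → V) : Prop where
  inj : ∀ i a j b, e i a = e j b → i = j ∧ a = b
  homW : ∀ i j a w, (∀ k b, w ≠ e k b) → (G.Adj (e i a) w ↔ G.Adj (e j a) w)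
  homD : ∀ i j a b, G.Adj (e i a) (e i b) ↔ G.Adj (e j a) (e j b)
  homC : ∀ i j i' j' a b, i ≠ j → i' ≠ j' → (G.Adj (e i a) (e j b) ↔ G.Adj (e i' a) (e j' b))

/-- the sparse graph -/
def sp (G : SimpleGraph V) (e : ι → C → V) (Q : Finset ι) (Z : C → Finset V) : SimpleGraph V where
  Adj u v := G.Adj u v ∧
    (∀ i a, i ∉ Q → u = e i a → (∃ b, v = e i b) ∨ (∃ j ∈ Q, ∃ b, v = e j b) ∨ v ∈ Z a) ∧
    (∀ i a, i ∉ Q → v = e i a → (∃ b, u = e i b) ∨ (∃ j ∈ Q, ∃ b, u = e j b) ∨ u ∈ Z a)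
  symm := ⟨fun _ _ h => ⟨h.1.symm, h.2.2, h.2.1⟩⟩
  loopless := ⟨fun _ h => h.1.ne rfl⟩

theorem dot_of_bip {H : SimpleGraph V} {p q : V → Fin d → ℝ} (hp : Gen p) (hq : IsMotion H p q)
    {A B Nu Nv : Finset V} {u v : V} (hA : A.card = d + 1) (hB : d * d + d ≤ B.card)
    (hAB : ∀ a ∈ A, ∀ b ∈ B, H.Adj a b) (hu1 : ∀ x ∈ Nu, x ∈ A ∨ x ∈ B) (hu2 : d ≤ Nu.card)
    (hu3 : ∀ x ∈ Nu, H.Adj u x) (hv1 : ∀ x ∈ Nv, x ∈ A ∨ x ∈ B) (hv2 : d ≤ Nv.card)
    (hv3 : ∀ x ∈ Nv, H.Adj v x) : (p u - p v) ⬝ᵥ (q u - q v) = 0 := by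
  classical
  have h1 := rigid_bipartite hp H A B hA hB hAB
  have h2 := IL.extend hp H _ h1 u Nu hu2 (fun x hx => by
    rw [mem_coe, mem_union]; exact hu1 x hx) hu3
  have h3 := IL.extend hp H _ h2 v Nv hv2 (fun x hx => Or.inr (by
    rw [mem_coe, mem_union]; exact hv1 x hx)) hv3
  obtain ⟨M, b, hM, hb⟩ := h3 q (fun u _ v _ h => hq u v h)
  rw [hb u (Or.inr (Or.inl rfl)), hb v (Or.inl rfl), add_sub_add_right_eq_sub,
    ← Matrix.mulVec_sub]
  exact skew_dot_self hM _

/-- the selected outer neighbours -/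
structure Sel (d : ℕ) (G : SimpleGraph V) (e : ι → C → V) (Z : C → Finset V) : Prop where
  out : ∀ a, ∀ z ∈ Z a, ∀ i b, z ≠ e i b
  adj : ∀ a, ∀ z ∈ Z a, ∀ i, G.Adj (e i a) z
  le : ∀ a, (Z a).card ≤ d + 1
  full : ∀ a, (Z a).card < d + 1 → ∀ w, (∀ i b, w ≠ e i b) → ∀ i, G.Adj (e i a) w → w ∈ Z a

theorem exists_sel {G : SimpleGraph V} {e : ι → C → V} (hH : Homog G e) (i0 : ι) :
    ∃ Z : C → Finset V, Sel d G e Z := by
  classical
  have h : ∀ a : C, ∃ Z : Finset V, (∀ z ∈ Z, (∀ i b, z ≠ e i b) ∧ G.Adj (e i0 a) z) ∧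
      Z.card ≤ d + 1 ∧ (Z.card < d + 1 → ∀ w, (∀ i b, w ≠ e i b) → G.Adj (e i0 a) w → w ∈ Z) := by
    intro a
    set N : Finset V := univ.filter fun w => (∀ i b, w ≠ e i b) ∧ G.Adj (e i0 a) w with hN
    obtain ⟨Z, hZ, hZc⟩ := exists_subset_card_eq (min_le_right (d + 1) N.card)
    refine ⟨Z, fun z hz => (mem_filter.1 (hZ hz)).2, by omega, fun hlt w hw hadj => ?_⟩
    have : Z = N := eq_of_subset_of_card_le hZ (by omega)
    rw [this]
    exact mem_filter.2 ⟨mem_univ _, hw, hadj⟩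
  choose Z h1 h2 h3 using h
  exact ⟨Z, fun a z hz => (h1 a z hz).1, fun a z hz i =>
    (hH.homW i i0 a z (h1 a z hz).1).2 (h1 a z hz).2, h2,
    fun a hlt w hw i hadj => h3 a hlt w hw ((hH.homW i i0 a w hw).1 hadj)⟩

variable {G : SimpleGraph V} {e : ι → C → V} {Q : Finset ι} {Z : C → Finset V}

/-- an edge from a vertex outside the family to a core vertex is kept -/
theorem sp_adj_core (hH : Homog G e) {u : V} {k : ι} {b : C} (hk : k ∈ Q)
    (h : G.Adj u (e k b)) : (sp G e Q Z).Adj u (e k b) := by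
  refine ⟨h, fun i a _ _ => Or.inr (Or.inl ⟨k, hk, b, rfl⟩), fun i a hi h' => ?_⟩
  exact absurd ((hH.inj _ _ _ _ h').1 ▸ hk) hi

theorem sp_adj_sel (hH : Homog G e) (hZ : Sel d G e Z) {i : ι} {a : C} {z : V} (hz : z ∈ Z a) :
    (sp G e Q Z).Adj (e i a) z := by
  refine ⟨hZ.adj a z hz i, fun j b _ h => ?_, fun j b _ h => absurd h (hZ.out a z hz j b)⟩
  obtain ⟨-, rfl⟩ := hH.inj _ _ _ _ h
  exact Or.inr (Or.inr hz)

open Classical in
theorem sp_motion_aux (hH : Homog G e) (hZ : Sel d G e Z) (hQ : Q.card = (d + 1) ^ 2)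
    {p q : V → Fin d → ℝ} (hp : Gen p) (hq : IsMotion (sp G e Q Z) p q) {i : ι} {a : C} {v : V}
    (hi : i ∉ Q) (huv : G.Adj (e i a) v) (h1 : ¬ ∃ b, v = e i b)
    (h2 : ¬ ∃ j ∈ Q, ∃ b, v = e j b) (h3 : v ∉ Z a) :
    (p (e i a) - p v) ⬝ᵥ (q (e i a) - q v) = 0 := by
  have hinj : ∀ c : C, Function.Injective fun k => e k c := fun c k l h => (hH.inj _ _ _ _ h).1
  have hQ2 : Q.card = (d * d + d) + (d + 1) := by rw [hQ]; ring
  by_cases hv : ∃ j b, v = e j b
  · obtain ⟨j, b, rfl⟩ := hv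
    have hij : i ≠ j := by rintro rfl; exact h1 ⟨b, rfl⟩
    have hj : j ∉ Q := fun h => h2 ⟨j, h, b, rfl⟩
    have hG : ∀ k l, k ≠ l → G.Adj (e k a) (e l b) := fun k l hkl =>
      (hH.homC i j k l a b hij hkl).1 huv
    obtain ⟨Q1, hQ1, hQ1c⟩ := exists_subset_card_eq (s := Q) (n := d + 1) (by omega)
    have hQ2c : (Q \ Q1).card = d * d + d := by rw [card_sdiff_of_subset hQ1]; omega
    refine dot_of_bip hp hq (A := Q1.image fun k => e k a) (B := (Q \ Q1).image fun l => e l b)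
      (Nu := (Q \ Q1).image fun l => e l b) (Nv := Q1.image fun k => e k a)
      ?_ ?_ ?_ (fun x hx => Or.inr hx) ?_ ?_ (fun x hx => Or.inl hx) ?_ ?_
    · rw [card_image_of_injective _ (hinj a), hQ1c]
    · rw [card_image_of_injective _ (hinj b), hQ2c]
    · intro x hx y hy
      obtain ⟨k, hk, rfl⟩ := mem_image.1 hx
      obtain ⟨l, hl, rfl⟩ := mem_image.1 hy
      rw [mem_sdiff] at hl
      exact sp_adj_core hH hl.1 (hG k l fun h => hl.2 (h ▸ hk))
    · rw [card_image_of_injective _ (hinj b), hQ2c]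
      exact Nat.le_add_left _ _
    · intro y hy
      obtain ⟨l, hl, rfl⟩ := mem_image.1 hy
      rw [mem_sdiff] at hl
      exact sp_adj_core hH hl.1 (hG i l fun h => hi (h ▸ hl.1))
    · rw [card_image_of_injective _ (hinj a), hQ1c]
      exact Nat.le_succ _
    · intro x hx
      obtain ⟨k, hk, rfl⟩ := mem_image.1 hx
      exact sp_adj_core hH (hQ1 hk) (hG k j fun h => hj (h ▸ hQ1 hk)).symm
  · have hv' : ∀ j b, v ≠ e j b := fun j b h => hv ⟨j, b, h⟩
    have hZc : (Z a).card = d + 1 := by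
      by_contra hc
      have := hZ.le a
      exact h3 (hZ.full a (by omega) v hv' i huv)
    refine dot_of_bip hp hq (A := Z a) (B := Q.image fun k => e k a)
      (Nu := Z a) (Nv := Q.image fun k => e k a)
      hZc ?_ ?_ (fun x hx => Or.inl hx) ?_ ?_ (fun x hx => Or.inr hx) ?_ ?_
    · rw [card_image_of_injective _ (hinj a)]
      omega
    · intro z hz y hy
      obtain ⟨k, hk, rfl⟩ := mem_image.1 hy
      exact (sp_adj_sel hH hZ hz).symm
    · omega
    · intro z hz
      exact sp_adj_sel hH hZ hz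
    · rw [card_image_of_injective _ (hinj a)]
      omega
    · intro y hy
      obtain ⟨k, hk, rfl⟩ := mem_image.1 hy
      exact sp_adj_core hH hk ((hH.homW i k a v hv').1 huv).symm

theorem sp_motion (hH : Homog G e) (hZ : Sel d G e Z) (hQ : Q.card = (d + 1) ^ 2)
    {p q : V → Fin d → ℝ} (hp : Gen p) (hq : IsMotion (sp G e Q Z) p q) : IsMotion G p q := by
  intro u v huv
  by_cases hk : (sp G e Q Z).Adj u v
  · exact hq u v hk
  · have h1 : ¬ ((∀ i a, i ∉ Q → u = e i a → (∃ b, v = e i b) ∨ (∃ j ∈ Q, ∃ b, v = e j b) ∨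
        v ∈ Z a) ∧ (∀ i a, i ∉ Q → v = e i a → (∃ b, u = e i b) ∨
        (∃ j ∈ Q, ∃ b, u = e j b) ∨ u ∈ Z a)) := fun h => hk ⟨huv, h⟩
    rw [not_and_or] at h1
    rcases h1 with h1 | h1
    · push Not at h1
      obtain ⟨i, a, hi, rfl, h2, h3, h4⟩ := h1
      refine sp_motion_aux hH hZ hQ hp hq hi huv ?_ ?_ h4
      · rintro ⟨b, rfl⟩; exact h2 b rfl
      · rintro ⟨j, hj, b, rfl⟩; exact h3 j hj b rfl
    · push Not at h1
      obtain ⟨i, a, hi, rfl, h2, h3, h4⟩ := h1
      have := sp_motion_aux hH hZ hQ hp hq hi huv.symm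
        (by rintro ⟨b, rfl⟩; exact h2 b rfl)
        (by rintro ⟨j, hj, b, rfl⟩; exact h3 j hj b rfl) h4
      rw [← neg_sub (p u), ← neg_sub (q u), neg_dotProduct_neg] at this
      exact this

open Classical in
theorem sp_pieces (hH : Homog G e) (hZ : Sel d G e Z) :
    Pieces (sp G e Q Z) ((Q ×ˢ (univ : Finset C)).image (fun x => e x.1 x.2) ∪ univ.biUnion Z)
      (fun i : {i // i ∉ Q} => e i) where
  inj := by
    intro i a j b h
    obtain ⟨h1, h2⟩ := hH.inj _ _ _ _ h
    exact ⟨Subtype.ext h1, h2⟩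
  out := by
    intro i a h
    rcases mem_union.1 h with h | h
    · obtain ⟨⟨k, b⟩, hk, h⟩ := mem_image.1 h
      exact i.2 ((hH.inj _ _ _ _ h).1 ▸ (mem_product.1 hk).1)
    · obtain ⟨b, -, h⟩ := mem_biUnion.1 h
      exact hZ.out b _ h _ _ rfl
  nbr := by
    intro i a w h
    rcases h.2.1 i a i.2 rfl with h1 | ⟨j, hj, b, rfl⟩ | h1
    · exact Or.inr h1
    · exact Or.inl (mem_union_left _ (mem_image.2 ⟨(j, b), mem_product.2 ⟨hj, mem_univ _⟩, rfl⟩))
    · exact Or.inl (mem_union_right _ (mem_biUnion.2 ⟨a, mem_univ _, h1⟩))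
  homX := by
    intro i j a x hx
    rcases mem_union.1 hx with h | h
    · obtain ⟨⟨k, b⟩, hk, rfl⟩ := mem_image.1 h
      have hk' : k ∈ Q := (mem_product.1 hk).1
      have hG := hH.homC (i : ι) k (j : ι) k a b (fun h => i.2 (h ▸ hk')) (fun h => j.2 (h ▸ hk'))
      exact ⟨fun h => sp_adj_core hH hk' (hG.1 h.1), fun h => sp_adj_core hH hk' (hG.2 h.1)⟩
    · obtain ⟨c, -, hc⟩ := mem_biUnion.1 h
      have hout := hZ.out c x hc
      have key : ∀ i j : {i // i ∉ Q}, (sp G e Q Z).Adj (e i a) x →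
          (sp G e Q Z).Adj (e j a) x := by
        intro i j h
        rcases h.2.1 i a i.2 rfl with ⟨b, h1⟩ | ⟨k, _, b, h1⟩ | h1
        · exact absurd h1 (hout _ _)
        · exact absurd h1 (hout _ _)
        · exact sp_adj_sel hH hZ h1
      exact ⟨key i j, key j i⟩
  homD := by
    have key : ∀ (i j : {i // i ∉ Q}) (a b : C), (sp G e Q Z).Adj (e i a) (e i b) →
        (sp G e Q Z).Adj (e j a) (e j b) := by
      intro i j a b h
      refine ⟨(hH.homD i j a b).1 h.1, fun k c _ h' => ?_, fun k c _ h' => ?_⟩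
      · obtain ⟨rfl, rfl⟩ := hH.inj _ _ _ _ h'
        exact Or.inl ⟨b, rfl⟩
      · obtain ⟨rfl, rfl⟩ := hH.inj _ _ _ _ h'
        exact Or.inl ⟨a, rfl⟩
    exact fun i j a b => ⟨key i j a b, key j i a b⟩

/-- the number of pieces which is needed for the deletion of a piece with `c` vertices -/
def enough (d c : ℕ) : ℕ := (d + 1) ^ 2 + d * ((d + 1) ^ 2 * c + c * (d + 1)) + d + 3

theorem enough_mono {d c c' : ℕ} (h : c ≤ c') : enough d c ≤ enough d c' := by
  unfold enough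
  gcongr

/-- **Deletion lemma.** From a generically rigid graph with a large homogeneous family of pieces any
piece can be deleted. -/
theorem delete [Nonempty C] (hH : Homog G e) (hG : GenRigid d G)
    (hN : enough d (Fintype.card C) ≤ Fintype.card ι) (i0 : ι) :
    GenRigid d (G.induce {v | ∀ a, v ≠ e i0 a}) := by
  classical
  unfold enough at hN
  set c := Fintype.card C with hc
  have hc1 : 1 ≤ c := Fintype.card_pos
  obtain ⟨Q, hQ, hQc⟩ := exists_subset_card_eq (s := (univ : Finset ι).erase i0)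
    (n := (d + 1) ^ 2) (by
      rw [card_erase_of_mem (mem_univ _), card_univ]
      omega)
  have hi0 : i0 ∉ Q := fun h => notMem_erase i0 _ (hQ h)
  obtain ⟨Z, hZ⟩ := exists_sel (d := d) hH i0
  have hsp : GenRigid d (sp G e Q Z) := by
    obtain ⟨p, hp⟩ := exists_gen V d
    refine ⟨p, fun q hq => ?_⟩
    have h1 := (rigidOn_univ_iff G p).1 ((hp.genRigid_iff G).1 hG)
    exact h1 q (sp_motion hH hZ hQc hp hq)
  have hX : ((Q ×ˢ (univ : Finset C)).image (fun x => e x.1 x.2) ∪ univ.biUnion Z).card ≤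
      (d + 1) ^ 2 * c + c * (d + 1) := by
    refine (card_union_le _ _).trans (Nat.add_le_add ?_ ?_)
    · refine card_image_le.trans ?_
      rw [card_product, hQc, card_univ]
    · refine (card_biUnion_le_card_mul _ _ (d + 1) fun a _ => hZ.le a).trans ?_
      rw [card_univ]
  have hι : Fintype.card {i // i ∉ Q} = Fintype.card ι - (d + 1) ^ 2 := by
    rw [Fintype.card_subtype_compl, Fintype.card_coe, hQc]
  have h1 := Nat.mul_le_mul_left d hX
  have hVc : Fintype.card ι * c ≤ Fintype.card V := by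
    rw [hc, ← Fintype.card_prod]
    apply Fintype.card_le_of_injective (fun x : ι × C => e x.1 x.2)
    rintro ⟨i, a⟩ ⟨j, b⟩ h
    obtain ⟨h1, h2⟩ := hH.inj _ _ _ _ h
    exact Prod.ext h1 h2
  have h2 := rigid_of_pieces (sp_pieces (Q := Q) hH hZ) hsp ⟨i0, hi0⟩ (by omega) (by
    have h3 : (d + 1) * c ≤ Fintype.card ι * c := Nat.mul_le_mul_right _ (by omega)
    have h4 : d * 1 ≤ d * c := Nat.mul_le_mul_left _ hc1
    rw [add_mul, one_mul] at h3
    omega)
  obtain ⟨p, hp⟩ := h2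
  refine ⟨p, fun q hq => hp q fun u v huv => hq u v ?_⟩
  exact huv.1

end Pool.Agent.T2H92.SD
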