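import Mathlib
import Pool.Agent.T2H92.SD.Delete
import Pool.Agent.H283R2.DR.TaskG

/-!
# Tree models (shrub-depth)

Large graphs with a tree model of bounded depth contain large homogeneous families of small pieces.
-/

set_option autoImplicit false
set_option linter.unusedSectionVars false

namespace Pool.Agent.T2H92.SD

open Finset Matrix Module Pool.Agent.H283R2.DR Pool.Agent.H789R5

/-- A tree model of depth `t` with `m` labels. The vertices are leaves at depth `t` of a rooted
tree; `addr v 0, …, addr v (t - 1)` are the branches taken on the path from the root to `v`. Two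
vertices whose paths separate at the level `i` are adjacent if and only if `S i` holds for their
labels. -/
structure TreeModel {V : Type} (G : SimpleGraph V) (t m : ℕ) (addr : V → ℕ → ℕ) (lab : V → Fin m)
    (S : ℕ → Fin m → Fin m → Prop) : Prop where
  inj : ∀ u v, (∀ j < t, addr u j = addr v j) → u = v
  adj : ∀ u v i, (∀ j < i, addr u j = addr v j) → addr u i ≠ addr v i →
    (G.Adj u v ↔ S i (lab u) (lab v))

/-- `G` has a tree model of depth `t` with `m` labels. -/
def HasTreeModel {V : Type} (t m : ℕ) (G : SimpleGraph V) : Prop :=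
  ∃ addr lab S, TreeModel G t m addr lab S

/-- the types of pieces with at most `b` vertices -/
abbrev PType (m b : ℕ) : Type := Fin (b + 1) × (Fin b → Option (Fin m)) × (Fin b → Fin b → Bool)

/-- the bound for the classes of height `h` -/
def bnd (d m : ℕ) : ℕ → ℕ
  | 0 => 1
  | h + 1 => bnd d m h * (Fintype.card (PType m (bnd d m h)) * enough d (bnd d m h))

variable {V : Type} [Fintype V] {d t m : ℕ} {G : SimpleGraph V} {addr : V → ℕ → ℕ}
  {lab : V → Fin m} {S : ℕ → Fin m → Fin m → Prop}

/-- there is no large homogeneous family -/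
def Irr (d : ℕ) (G : SimpleGraph V) : Prop :=
  ∀ (ι : Type) [Fintype ι] (c : ℕ) (e : ι → Fin c → V), 0 < c → Homog G e →
    Fintype.card ι < enough d c

open Classical in
/-- the vertices whose paths start in the same way as that of `v` -/
noncomputable def pre (addr : V → ℕ → ℕ) (i : ℕ) (v : V) : Finset V :=
  univ.filter fun u => ∀ j < i, addr u j = addr v j

theorem mem_pre {addr : V → ℕ → ℕ} {i : ℕ} {u v : V} :
    u ∈ pre addr i v ↔ ∀ j < i, addr u j = addr v j := by
  simp [pre]

open Classical in
/-- the type of a list of vertices -/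
noncomputable def ty (G : SimpleGraph V) (lab : V → Fin m) (b : ℕ) (l : List V) : PType m b :=
  (⟨min l.length b, Nat.lt_succ_of_le (min_le_right _ _)⟩, fun k => (l[(k : ℕ)]?).map lab,
    fun k k' => decide (∃ u v, l[(k : ℕ)]? = some u ∧ l[(k' : ℕ)]? = some v ∧ G.Adj u v))

open Classical in
theorem step (hM : TreeModel G t m addr lab S) (hI : Irr d G) {b i : ℕ}
    (hb : ∀ v, (pre addr (i + 1) v).card ≤ b) (v0 : V) :
    (pre addr i v0).card ≤ b * (Fintype.card (PType m b) * enough d b) := by
  set P := pre addr i v0 with hP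
  set vals := P.image (fun v => addr v i) with hvals
  set D : ℕ → Finset V := fun x => P.filter fun v => addr v i = x with hD
  have hDx : ∀ x v, v ∈ D x → D x = pre addr (i + 1) v := by
    intro x v hv
    rw [hD, mem_filter, hP, mem_pre] at hv
    ext u
    rw [mem_filter, mem_pre, mem_pre]
    constructor
    · rintro ⟨h1, h2⟩ j hj
      rcases Nat.lt_succ_iff_lt_or_eq.1 hj with h | h
      · rw [h1 j h, hv.1 j h]
      · rw [h, h2, hv.2]
    · intro h
      exact ⟨fun j hj => by rw [h j (by omega), hv.1 j hj], by rw [h i (by omega), hv.2]⟩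
  have hDb : ∀ x, (D x).card ≤ b := by
    intro x
    rcases (D x).eq_empty_or_nonempty with h | ⟨v, hv⟩
    · rw [h]; simp
    · rw [hDx x v hv]; exact hb v
  have hlen : ∀ x, (D x).toList.length ≤ b := fun x => by rw [length_toList]; exact hDb x
  have h1 : P.card ≤ b * vals.card := by
    refine card_le_mul_card_image _ _ fun x _ => ?_
    exact hDb x
  refine h1.trans (Nat.mul_le_mul_left _ ?_)
  by_contra hcon
  push Not at hcon
  obtain ⟨τ, -, hτ⟩ := exists_le_card_fiber_of_mul_le_card_of_maps_to
    (s := vals) (t := (univ : Finset (PType m b))) (f := fun x => ty G lab b (D x).toList)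
    (n := enough d b) (fun _ _ => mem_univ _) ⟨ty G lab b [], mem_univ _⟩ (by
      rw [card_univ]; exact hcon.le)
  set F := vals.filter (fun x => ty G lab b (D x).toList = τ) with hF
  have hFn : F.Nonempty := by
    rw [← card_pos]
    have : 0 < enough d b := by unfold enough; omega
    omega
  obtain ⟨x0, hx0⟩ := hFn
  set c := (D x0).toList.length with hc
  have hcb : c ≤ b := hlen x0
  have hty : ∀ x ∈ F, ty G lab b (D x).toList = ty G lab b (D x0).toList := by
    intro x hx
    rw [(mem_filter.1 hx).2, (mem_filter.1 hx0).2]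
  have hlen' : ∀ x ∈ F, (D x).toList.length = c := by
    intro x hx
    have h2 := congrArg (fun y => (y.1 : ℕ)) (hty x hx)
    simp only [ty] at h2
    rw [min_eq_left (hlen x), min_eq_left (hlen x0)] at h2
    exact h2
  have hc0 : 0 < c := by
    have h2 := (mem_filter.1 hx0).1
    rw [hvals, mem_image] at h2
    obtain ⟨v, hv, hvx⟩ := h2
    rw [hc, length_toList, card_pos]
    exact ⟨v, mem_filter.2 ⟨hv, hvx⟩⟩
  -- the pieces
  let e : {x // x ∈ F} → Fin c → V := fun x a => (D x).toList[(a : ℕ)]'(by
    rw [hlen' x x.2]; exact a.2)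
  have heD : ∀ (x : {x // x ∈ F}) (a : Fin c), e x a ∈ D x :=
    fun x a => mem_toList.1 (List.getElem_mem _)
  have heP : ∀ (x : {x // x ∈ F}) (a : Fin c), e x a ∈ P := fun x a => (mem_filter.1 (heD x a)).1
  have hei : ∀ (x : {x // x ∈ F}) (a : Fin c), addr (e x a) i = x :=
    fun x a => (mem_filter.1 (heD x a)).2
  have heq : ∀ (x : {x // x ∈ F}) (a : Fin c), (D x).toList[(a : ℕ)]? = some (e x a) :=
    fun x a => List.getElem?_eq_getElem _
  have hsur : ∀ (x : {x // x ∈ F}) v, v ∈ D x → ∃ a, v = e x a := by
    intro x v hv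
    obtain ⟨k, hk, h⟩ := List.getElem_of_mem (mem_toList.2 hv)
    exact ⟨⟨k, by rw [← hlen' x x.2]; exact hk⟩, h.symm⟩
  have helab : ∀ (x y : {x // x ∈ F}) (a : Fin c), lab (e x a) = lab (e y a) := by
    intro x y a
    have h2 := (hty x x.2).trans (hty y y.2).symm
    have h3 := congrFun (congrArg (fun z => z.2.1) h2) ⟨a, lt_of_lt_of_le a.2 hcb⟩
    simp only [ty] at h3
    rw [heq x a, heq y a] at h3
    simpa using h3
  have hH : Homog G e := by
    refine ⟨?_, ?_, ?_, ?_⟩
    · intro x a y b h
      have hxy : x = y := Subtype.ext (by rw [← hei x a, ← hei y b, h])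
      subst hxy
      refine ⟨rfl, ?_⟩
      have h2 := (List.Nodup.getElem_inj_iff (nodup_toList (D x))).1 h
      exact Fin.ext h2
    · intro x y a w hw
      by_cases hwP : w ∈ P
      · have hne : ∀ z : {x // x ∈ F}, addr (e z a) i ≠ addr w i := by
          intro z h
          obtain ⟨k, hk⟩ := hsur z w (mem_filter.2 ⟨hwP, by rw [← h, hei z a]⟩)
          exact hw z k hk
        have hag : ∀ z : {x // x ∈ F}, ∀ j < i, addr (e z a) j = addr w j := by
          intro z j hj
          rw [mem_pre.1 (heP z a) j hj, mem_pre.1 hwP j hj]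
        rw [hM.adj _ _ i (hag x) (hne x), hM.adj _ _ i (hag y) (hne y), helab x y a]
      · have hex : ∃ j, j < i ∧ addr w j ≠ addr v0 j := by
          by_contra hc
          push Not at hc
          exact hwP (mem_pre.2 hc)
        set j := Nat.find hex with hj
        obtain ⟨hji, hjne⟩ := Nat.find_spec hex
        have hlt : ∀ k < j, addr w k = addr v0 k := by
          intro k hk
          by_contra hc
          exact Nat.find_min hex hk ⟨by omega, hc⟩
        have hag : ∀ z : {x // x ∈ F}, ∀ k < j, addr (e z a) k = addr w k := by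
          intro z k hk
          rw [mem_pre.1 (heP z a) k (by omega), hlt k hk]
        have hne : ∀ z : {x // x ∈ F}, addr (e z a) j ≠ addr w j := by
          intro z h
          rw [mem_pre.1 (heP z a) j hji] at h
          exact hjne h.symm
        rw [hM.adj _ _ j (hag x) (hne x), hM.adj _ _ j (hag y) (hne y), helab x y a]
    · intro x y a b
      have h2 := (hty x x.2).trans (hty y y.2).symm
      have h3 := congrFun (congrFun (congrArg (fun z => z.2.2) h2)
        ⟨a, lt_of_lt_of_le a.2 hcb⟩) ⟨b, lt_of_lt_of_le b.2 hcb⟩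
      simp only [ty, decide_eq_decide] at h3
      rw [heq x a, heq y a, heq x b, heq y b] at h3
      simpa using h3
    · intro x y x' y' a b hxy hxy'
      have hag : ∀ (x y : {x // x ∈ F}), ∀ j < i, addr (e x a) j = addr (e y b) j := by
        intro x y j hj
        rw [mem_pre.1 (heP x a) j hj, mem_pre.1 (heP y b) j hj]
      have hne : ∀ (x y : {x // x ∈ F}), x ≠ y → addr (e x a) i ≠ addr (e y b) i := by
        intro x y hxy h
        rw [hei x a, hei y b] at h
        exact hxy (Subtype.ext h)
      rw [hM.adj _ _ i (hag x y) (hne x y hxy), hM.adj _ _ i (hag x' y') (hne x' y' hxy'),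
        helab x x' a, helab y y' b]
  have h2 := hI {x // x ∈ F} c e hc0 hH
  rw [Fintype.card_coe] at h2
  have h3 := enough_mono (d := d) hcb
  omega

theorem small_of_irr (hM : TreeModel G t m addr lab S) (hI : Irr d G) :
    Fintype.card V ≤ bnd d m t := by
  have key : ∀ h ≤ t, ∀ v, (pre addr (t - h) v).card ≤ bnd d m h := by
    intro h
    induction h with
    | zero =>
      intro _ v
      rw [Nat.sub_zero]
      refine card_le_one.2 fun a ha b hb => ?_
      rw [mem_pre] at ha hb
      exact hM.inj a b fun j hj => by rw [ha j hj, hb j hj]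
    | succ h ih =>
      intro hh v
      have h1 := ih (by omega)
      have h2 : t - h = (t - (h + 1)) + 1 := by omega
      rw [h2] at h1
      exact step hM hI h1 v
  rcases isEmpty_or_nonempty V with hV | ⟨⟨v⟩⟩
  · rw [Fintype.card_eq_zero]
    exact Nat.zero_le _
  · have h1 := key t le_rfl v
    have h2 : pre addr (t - t) v = univ := by
      ext u
      rw [mem_pre]
      simp
    rwa [h2, card_univ] at h1

theorem GenRigid.iso {W : Type} {H : SimpleGraph W} (f : G ≃g H) (hG : GenRigid d G) :
    GenRigid d H := by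
  obtain ⟨p, hp⟩ := hG
  refine ⟨fun w => p (f.symm w), fun q hq => ?_⟩
  obtain ⟨A, b, hA, hb⟩ := hp (fun v => q (f v)) (by
    intro u v huv
    have := hq (f u) (f v) (f.map_rel_iff.2 huv)
    simpa using this)
  refine ⟨A, b, hA, fun w => ?_⟩
  have := hb (f.symm w)
  simpa using this

open Classical in
/-- In a generically rigid graph with a tree model any two vertices lie in a generically rigid
subgraph of bounded size. -/
theorem exists_small (hM : TreeModel G t m addr lab S) (hG : GenRigid d G) (u v : V) :
    ∃ U : Finset V, u ∈ U ∧ v ∈ U ∧ U.card ≤ bnd d m t ∧ GenRigid d (G.induce (U : Set V)) := by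
  have hex : ∃ n, ∃ U : Finset V, u ∈ U ∧ v ∈ U ∧ U.card = n ∧
      GenRigid d (G.induce (U : Set V)) := by
    refine ⟨_, univ, mem_univ _, mem_univ _, rfl, ?_⟩
    obtain ⟨p, hp⟩ := exists_gen V d
    rw [coe_univ, hp.genRigid_induce_iff, ← hp.genRigid_iff]
    exact hG
  obtain ⟨U, hu, hv, hUc, hU⟩ := Nat.find_spec hex
  have hmin : ∀ U' : Finset V, u ∈ U' → v ∈ U' → GenRigid d (G.induce (U' : Set V)) →
      U.card ≤ U'.card := by
    intro U' h1 h2 h3
    rw [hUc]
    exact Nat.find_min' hex ⟨U', h1, h2, rfl, h3⟩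
  refine ⟨U, hu, hv, ?_, hU⟩
  have hM' : TreeModel (G.induce (U : Set V)) t m (fun x => addr x) (fun x => lab x) S :=
    ⟨fun x y h => Subtype.ext (hM.inj x y h), fun x y i h1 h2 => hM.adj x y i h1 h2⟩
  have h1 := small_of_irr (d := d) hM' (by
    intro ι _ c e hc hH
    by_contra hcon
    push Not at hcon
    have : Nonempty (Fin c) := ⟨⟨0, hc⟩⟩
    -- a piece without `u` and `v`
    obtain ⟨i0, hi0⟩ : ∃ i0 : ι, ∀ a, (e i0 a : V) ≠ u ∧ (e i0 a : V) ≠ v := by
      by_contra hc2
      push Not at hc2
      have h3 : ∀ i, (∃ a, (e i a : V) = u) ∨ (∃ a, (e i a : V) = v) := by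
        intro i
        obtain ⟨a, ha⟩ := hc2 i
        by_cases h : (e i a : V) = u
        · exact Or.inl ⟨a, h⟩
        · exact Or.inr ⟨a, ha h⟩
      have h4 : Fintype.card ι ≤ Fintype.card Bool := by
        apply Fintype.card_le_of_injective (fun i => decide (∃ a, (e i a : V) = u))
        intro i j hij
        rw [decide_eq_decide] at hij
        by_cases hi : ∃ a, (e i a : V) = u
        · obtain ⟨b, hb⟩ := hij.1 hi
          obtain ⟨a, ha⟩ := hi
          exact (hH.inj _ _ _ _ (Subtype.ext (ha.trans hb.symm))).1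
        · have hj : ¬ ∃ a, (e j a : V) = u := fun h => hi (hij.2 h)
          obtain ⟨a, ha⟩ := (h3 i).resolve_left hi
          obtain ⟨b, hb⟩ := (h3 j).resolve_left hj
          exact (hH.inj _ _ _ _ (Subtype.ext (ha.trans hb.symm))).1
      rw [Fintype.card_bool] at h4
      unfold enough at hcon
      omega
    have h2 := delete hH hU (by rwa [Fintype.card_fin]) i0
    set U' : Finset V := U.filter (fun x => ∀ a, x ≠ (e i0 a : V)) with hU'
    have h3 : GenRigid d (G.induce (U' : Set V)) := by
      refine GenRigid.iso (G := (G.induce (U : Set V)).induce {x | ∀ a, x ≠ e i0 a}) ?_ h2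
      refine ⟨⟨fun x => ⟨x.1.1, ?_⟩, fun y => ⟨⟨y.1, ?_⟩, ?_⟩, ?_, ?_⟩, ?_⟩
      · rw [mem_coe, hU', mem_filter]
        exact ⟨x.1.2, fun a h => x.2 a (Subtype.ext h)⟩
      · exact mem_coe.2 (mem_filter.1 (mem_coe.1 y.2)).1
      · intro a h
        exact (mem_filter.1 (mem_coe.1 y.2)).2 a (congrArg Subtype.val h)
      · intro x
        rfl
      · intro y
        rfl
      · intro x y
        exact Iff.rfl
    have h4 := hmin U' (mem_filter.2 ⟨hu, fun a h => (hi0 a).1 h.symm⟩)
      (mem_filter.2 ⟨hv, fun a h => (hi0 a).2 h.symm⟩) h3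
    have h5 : U' ⊂ U := by
      rw [ssubset_iff_of_subset (filter_subset _ _)]
      exact ⟨e i0 ⟨0, hc⟩, (e i0 ⟨0, hc⟩).2, fun h => (mem_filter.1 h).2 _ rfl⟩
    have h6 := card_lt_card h5
    omega)
  simpa using h1

end Pool.Agent.T2H92.SD
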