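import Mathlib
import Pool.Agent.T2H92.SD.Model

/-!
# The deletion of a piece of a large homogeneous family is a safe reduction
-/

set_option autoImplicit false
set_option linter.unusedSectionVars false

namespace Pool.Agent.T2H92.SD

open Finset Matrix Module Pool.Agent.H283R2.DR Pool.Agent.H789R5

variable {V : Type} {d : ℕ} [Fintype V] {ι C : Type} [Fintype ι] [Fintype C]
  {G : SimpleGraph V} {e : ι → C → V}

open Classical in
theorem exists_aut (hH : Homog G e) (σ : Equiv.Perm ι) :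
    ∃ π : G ≃g G, (∀ i a, π (e i a) = e (σ i) a) ∧ ∀ v, (∀ i a, v ≠ e i a) → π v = v := by
  have hinj : Function.Injective (fun x : ι × C => e x.1 x.2) := by
    rintro ⟨i, a⟩ ⟨j, b⟩ h
    obtain ⟨h1, h2⟩ := hH.inj _ _ _ _ h
    exact Prod.ext h1 h2
  set f := Equiv.ofInjective _ hinj with hf
  set τ : Equiv.Perm (ι × C) := Equiv.prodCongr σ (Equiv.refl C) with hτ
  set π : Equiv.Perm V := Equiv.Perm.extendDomain τ f with hπ
  have hπ1 : ∀ i a, π (e i a) = e (σ i) a := by
    intro i a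
    exact Equiv.Perm.extendDomain_apply_image τ f (i, a)
  have hπ2 : ∀ v, (∀ i a, v ≠ e i a) → π v = v := by
    intro v hv
    apply Equiv.Perm.extendDomain_apply_not_subtype
    rintro ⟨⟨i, a⟩, h⟩
    exact hv i a h.symm
  have hcase : ∀ v, (∃ i a, v = e i a) ∨ (∀ i a, v ≠ e i a) := by
    intro v
    by_cases h : ∃ i a, v = e i a
    · exact Or.inl h
    · push Not at h
      exact Or.inr h
  have hadj : ∀ u v, G.Adj (π u) (π v) ↔ G.Adj u v := by
    intro u v
    rcases hcase u with ⟨i, a, rfl⟩ | hu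
    · rcases hcase v with ⟨j, b, rfl⟩ | hv
      · rw [hπ1, hπ1]
        by_cases hij : i = j
        · subst hij
          exact hH.homD _ _ _ _
        · exact hH.homC _ _ _ _ _ _ (fun h => hij (σ.injective h)) hij
      · rw [hπ1, hπ2 v hv]
        exact hH.homW _ _ _ _ hv
    · rcases hcase v with ⟨j, b, rfl⟩ | hv
      · rw [hπ1, hπ2 u hu, G.adj_comm, G.adj_comm u]
        exact hH.homW _ _ _ _ hu
      · rw [hπ2 u hu, hπ2 v hv]
  exact ⟨⟨π, fun {u v} => hadj u v⟩, hπ1, hπ2⟩

/-- If the graph without one piece is generically rigid, so is the graph. -/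
theorem rigid_of_delete [Nonempty C] (hH : Homog G e) (hN : d + 2 ≤ Fintype.card ι) (i0 : ι)
    (h0 : GenRigid d (G.induce {v | ∀ a, v ≠ e i0 a})) : GenRigid d G := by
  classical
  obtain ⟨p, hp⟩ := exists_gen V d
  obtain ⟨i1, hi1⟩ : ∃ i1, i1 ≠ i0 := by
    have : Nontrivial ι := Fintype.one_lt_card_iff_nontrivial.1 (by omega)
    exact exists_ne i0
  obtain ⟨π, hπ1, hπ2⟩ := exists_aut hH (Equiv.swap i0 i1)
  have h1 : GenRigid d (G.induce {v | ∀ a, v ≠ e i1 a}) := by
    refine GenRigid.iso (G := G.induce {v | ∀ a, v ≠ e i0 a}) ?_ h0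
    have key : ∀ v, (∀ a, v ≠ e i0 a) ↔ (∀ a, π v ≠ e i1 a) := by
      intro v
      refine forall_congr' fun a => not_congr ?_
      rw [← π.injective.eq_iff, hπ1, Equiv.swap_apply_left]
    refine ⟨⟨fun x => ⟨π x.1, (key _).1 x.2⟩, fun y => ⟨π.symm y.1, ?_⟩, ?_, ?_⟩, ?_⟩
    · show ∀ a, π.symm y.1 ≠ e i0 a
      rw [key]
      intro a h
      exact y.2 a (by rw [← h]; exact (π.apply_symm_apply y.1).symm)
    · intro x
      apply Subtype.ext
      simp
    · intro y
      apply Subtype.ext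
      simp
    · intro x y
      exact π.map_rel_iff
  rw [hp.genRigid_induce_iff] at h0 h1
  rw [hp.genRigid_iff]
  obtain ⟨a0⟩ := ‹Nonempty C›
  have h2 := IL.glue hp G _ _ h0 h1 ((univ \ {i0, i1}).image fun i => e i a0) (by
    rw [card_image_of_injective _ fun i j h => (hH.inj _ _ _ _ h).1, card_sdiff_of_subset
      (subset_univ _), card_univ, card_pair hi1.symm]
    omega) (by
    intro v hv
    obtain ⟨i, hi, rfl⟩ := mem_image.1 hv
    rw [mem_sdiff, mem_insert, mem_singleton, not_or] at hi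
    exact ⟨fun a h => hi.2.1 (hH.inj _ _ _ _ h).1, fun a h => hi.2.2 (hH.inj _ _ _ _ h).1⟩)
  have h3 : ({v | ∀ a, v ≠ e i0 a} ∪ {v | ∀ a, v ≠ e i1 a} : Set V) = Set.univ := by
    ext v
    simp only [Set.mem_union, Set.mem_ofPred_eq, Set.mem_univ, iff_true]
    by_contra hc
    push Not at hc
    obtain ⟨⟨a, ha⟩, ⟨b, hb⟩⟩ := hc
    exact hi1 (hH.inj _ _ _ _ (hb.symm.trans ha)).1
  rwa [h3] at h2

/-- **The reduction.** Any piece of a large homogeneous family can be deleted or restored. -/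
theorem delete_iff [Nonempty C] (hH : Homog G e)
    (hN : enough d (Fintype.card C) ≤ Fintype.card ι) (i0 : ι) :
    GenRigid d G ↔ GenRigid d (G.induce {v | ∀ a, v ≠ e i0 a}) := by
  refine ⟨fun h => delete hH h hN i0, fun h => rigid_of_delete hH ?_ i0 h⟩
  unfold enough at hN
  have : 0 ≤ d * ((d + 1) ^ 2 * Fintype.card C + Fintype.card C * (d + 1)) := Nat.zero_le _
  omega

end Pool.Agent.T2H92.SD
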