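import Mathlib
import Pool.Agent.T2H92.SD.Model

/-!
# Graphs of bounded tree-depth have tree models
-/

set_option autoImplicit false

namespace Pool.Agent.T2H92.SD

/-- The tree-depth of `G` is at most `t`: there is an injective map of the vertices to the nodes of
a rooted forest with `t` levels (a node is given by the list of the branches taken on the path to
it, beginning with the number of the component) such that for any two adjacent vertices one is an
ancestor of the other one. -/
def TreedepthLE {V : Type} (t : ℕ) (G : SimpleGraph V) : Prop :=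
  ∃ a : V → List ℕ, Function.Injective a ∧ (∀ v, a v ≠ [] ∧ (a v).length ≤ t) ∧
    ∀ u v, G.Adj u v → a u <+: a v ∨ a v <+: a u

/-- the labels -/
abbrev Lab (t : ℕ) : Type := Fin (t + 1) × (Fin (t + 1) → Bool)

/-- the number of the labels -/
def nlab (t : ℕ) : ℕ := (t + 1) * 2 ^ (t + 1)

theorem card_lab (t : ℕ) : Fintype.card (Lab t) = nlab t := by
  rw [Fintype.card_prod, Fintype.card_fun, Fintype.card_bool, Fintype.card_fin, nlab]

open Classical in
theorem hasTreeModel_of_treedepth {V : Type} {t : ℕ} {G : SimpleGraph V} (h : TreedepthLE t G) :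
    HasTreeModel t (nlab t) G := by
  obtain ⟨a, ha, hat, hadj⟩ := h
  let ε : Lab t ≃ Fin (nlab t) := Fintype.equivFinOfCardEq (card_lab t)
  let addr : V → ℕ → ℕ := fun v j => match (a v)[j]? with
    | none => 0
    | some x => x + 1
  let N : V → Fin (t + 1) → Bool := fun v k => decide (∃ w, a w = (a v).take k ∧ G.Adj v w)
  let lb : V → Lab t := fun v => (⟨(a v).length, Nat.lt_succ_of_le (hat v).2⟩, N v)
  let S : ℕ → Fin (nlab t) → Fin (nlab t) → Prop := fun i x y =>
    (((ε.symm x).1 : ℕ) = i ∧ ∃ h : i < t + 1, (ε.symm y).2 ⟨i, h⟩ = true) ∨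
    (((ε.symm y).1 : ℕ) = i ∧ ∃ h : i < t + 1, (ε.symm x).2 ⟨i, h⟩ = true)
  have ad0 : ∀ v j, addr v j = 0 ↔ (a v).length ≤ j := by
    intro v j
    simp only [addr]
    split
    · rename_i h
      rw [List.getElem?_eq_none_iff] at h
      exact ⟨fun _ => h, fun _ => rfl⟩
    · rename_i x h
      obtain ⟨h1, -⟩ := List.getElem?_eq_some_iff.1 h
      exact ⟨fun h2 => absurd h2 (Nat.succ_ne_zero x), fun h2 => by omega⟩
  have adeq : ∀ u v j, addr u j = addr v j → (a u)[j]? = (a v)[j]? := by
    intro u v j h
    simp only [addr] at h
    rcases hu : (a u)[j]? with _ | x <;> rcases hv : (a v)[j]? with _ | y <;> simp_all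
  have adlt : ∀ u v i, (∀ j < i, addr u j = addr v j) → (a u).take i = (a v).take i := by
    intro u v i h
    apply List.ext_getElem?
    intro k
    rw [List.getElem?_take, List.getElem?_take]
    split
    · rename_i hk
      exact adeq u v k (h k hk)
    · rfl
  refine ⟨addr, fun v => ε (lb v), S, ?_, ?_⟩
  · intro u v h
    apply ha
    have h1 := adlt u v t h
    rwa [List.take_of_length_le (hat u).2, List.take_of_length_le (hat v).2] at h1
  · intro u v i h hne
    have key : ∀ u v, (∀ j < i, addr u j = addr v j) → addr u i ≠ addr v i → addr v i = 0 →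
        ((a v).length = i ∧ a v = (a u).take i ∧ i < (a u).length) := by
      intro u v h hne h0
      have h1 := (ad0 v i).1 h0
      have h2 : i < (a u).length := by
        by_contra hc
        push Not at hc
        exact hne (((ad0 u i).2 hc).trans h0.symm)
      have h3 : (a v).length = i := by
        by_contra hc
        have h4 : (a v).length < i := by omega
        have h5 := h _ h4
        rw [(ad0 v _).2 le_rfl, ad0 u] at h5
        omega
      refine ⟨h3, ?_, h2⟩
      have h4 := adlt u v i h
      rw [h4, List.take_of_length_le h3.le]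
    have main : ∀ u v, (∀ j < i, addr u j = addr v j) → addr u i ≠ addr v i → addr v i = 0 →
        (G.Adj u v ↔ ((lb v).1 : ℕ) = i ∧ ∃ h : i < t + 1, (lb u).2 ⟨i, h⟩ = true) := by
      intro u v h hne h0
      obtain ⟨h1, h2, h3⟩ := key u v h hne h0
      have hit : i < t + 1 := by have := (hat u).2; omega
      constructor
      · intro huv
        exact ⟨h1, hit, decide_eq_true ⟨v, h2, huv⟩⟩
      · rintro ⟨-, _, h4⟩
        obtain ⟨w, hw, hadj⟩ := of_decide_eq_true h4
        have : w = v := ha (hw.trans h2.symm)
        rwa [this] at hadj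
    have hS : S i (ε (lb u)) (ε (lb v)) ↔
        (((lb u).1 : ℕ) = i ∧ ∃ h : i < t + 1, (lb v).2 ⟨i, h⟩ = true) ∨
        (((lb v).1 : ℕ) = i ∧ ∃ h : i < t + 1, (lb u).2 ⟨i, h⟩ = true) := by
      simp only [S, Equiv.symm_apply_apply]
    rw [hS]
    by_cases hv0 : addr v i = 0
    · rw [main u v h hne hv0]
      have hu0 : ((lb u).1 : ℕ) ≠ i := by
        intro h1
        exact hne (((ad0 u i).2 h1.le).trans hv0.symm)
      exact ⟨fun h => Or.inr h, fun h => h.resolve_left fun h' => hu0 h'.1⟩
    · by_cases hu0 : addr u i = 0
      · rw [G.adj_comm, main v u (fun j hj => (h j hj).symm) hne.symm hu0]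
        have hv1 : ((lb v).1 : ℕ) ≠ i := by
          intro h1
          exact hv0 ((ad0 v i).2 h1.le)
        exact ⟨fun h => Or.inl h, fun h => h.resolve_right fun h' => hv1 h'.1⟩
      · have hu1 : i < (a u).length := by
          by_contra hc
          exact hu0 ((ad0 u i).2 (by omega))
        have hv1 : i < (a v).length := by
          by_contra hc
          exact hv0 ((ad0 v i).2 (by omega))
        constructor
        · intro huv
          exfalso
          apply hne
          have : (a u)[i]? = (a v)[i]? := by
            rcases hadj u v huv with h1 | h1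
            · rw [List.getElem?_eq_getElem hu1, List.getElem?_eq_getElem hv1,
                h1.getElem hu1]
            · rw [List.getElem?_eq_getElem hu1, List.getElem?_eq_getElem hv1,
                h1.getElem hv1]
          simp only [addr, this]
        · rintro (⟨h1, -⟩ | ⟨h1, -⟩)
          · have : (a u).length = i := h1
            omega
          · have : (a v).length = i := h1
            omega

end Pool.Agent.T2H92.SD
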